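import Pool.Agent.H474.MS.Stm

/-!
# `A(T)/T → α` implies `T R(T) → α`

Helper100, subtask MS-L1 for helper474 (MP_4f18df_nt).
-/

set_option autoImplicit false

open MeasureTheory Filter Topology Set

namespace Pool.Agent.H100.MS.L1

open Pool.Agent.H474.MS

variable {ι : Type} {w g : ι → ℝ}

lemma sumA (h : Dat w g) (T : ℝ) : Summable fun i => if g i ≤ T then w i * g i ^ 2 else 0 := by
  refine Summable.of_nonneg_of_le (fun i => ?_) (fun i => ?_) (h.ws.mul_right (T ^ 2))
  · split_ifs
    · exact mul_nonneg (h.w0 i) (sq_nonneg _)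
    · exact le_rfl
  · split_ifs with hi
    · exact mul_le_mul_of_nonneg_left (pow_le_pow_left₀ (h.g0 i) hi 2) (h.w0 i)
    · exact mul_nonneg (h.w0 i) (sq_nonneg _)

lemma sumR (h : Dat w g) (T : ℝ) : Summable fun i => if T < g i then w i else 0 := by
  refine Summable.of_nonneg_of_le (fun i => ?_) (fun i => ?_) h.ws
  · split_ifs
    · exact h.w0 i
    · exact le_rfl
  · split_ifs
    · exact le_rfl
    · exact h.w0 i

lemma monoA (h : Dat w g) : Monotone (AA w g) := by
  intro S T hST
  unfold AA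
  refine Summable.tsum_le_tsum (fun i => ?_) (sumA h S) (sumA h T)
  split_ifs with h1 h2
  · exact le_rfl
  · exact absurd (h1.trans hST) h2
  · exact mul_nonneg (h.w0 i) (sq_nonneg _)
  · exact le_rfl

/-- the kernel -/
noncomputable def k (t : ℝ) : ℝ := 2 * t ^ (-3 : ℝ)

lemma k_nonneg {t : ℝ} (ht : 0 < t) : 0 ≤ k t := by
  unfold k
  positivity

lemma k_int {c : ℝ} (hc : 0 < c) : IntegrableOn k (Ioi c) :=
  (integrableOn_Ioi_rpow_of_lt (by norm_num) hc).const_mul 2

lemma k_val {c : ℝ} (hc : 0 < c) : ∫ t in Ioi c, k t = 1 / c ^ 2 := by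
  unfold k
  rw [integral_const_mul, integral_Ioi_rpow_of_lt (by norm_num) hc]
  have h1 : c ^ ((-3 : ℝ) + 1) = (c ^ 2)⁻¹ := by
    rw [show (-3 : ℝ) + 1 = -((2 : ℕ) : ℝ) by norm_num, Real.rpow_neg hc.le, Real.rpow_natCast]
  rw [h1, one_div]
  ring

lemma kt_eq {t : ℝ} (ht : 0 < t) : k t * t = 2 * t ^ (-2 : ℝ) := by
  unfold k
  have h1 : t ^ (-2 : ℝ) = t ^ (-3 : ℝ) * t := by
    conv_rhs => rw [← Real.rpow_one t, ← Real.rpow_mul ht.le, one_mul]
    rw [← Real.rpow_add ht]
    norm_num
  rw [h1]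
  ring

lemma kt_int {c : ℝ} (hc : 0 < c) : IntegrableOn (fun t => k t * t) (Ioi c) := by
  have h1 : IntegrableOn (fun t : ℝ => 2 * t ^ (-2 : ℝ)) (Ioi c) :=
    (integrableOn_Ioi_rpow_of_lt (by norm_num) hc).const_mul 2
  refine h1.congr_fun (fun t ht => ?_) measurableSet_Ioi
  exact (kt_eq (hc.trans ht)).symm

lemma kt_val {c : ℝ} (hc : 0 < c) : ∫ t in Ioi c, k t * t = 2 / c := by
  rw [setIntegral_congr_fun measurableSet_Ioi (fun t ht => kt_eq (hc.trans ht)),
    integral_const_mul, integral_Ioi_rpow_of_lt (by norm_num) hc]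
  have h1 : c ^ ((-2 : ℝ) + 1) = c⁻¹ := by
    rw [show (-2 : ℝ) + 1 = -1 by norm_num, Real.rpow_neg_one]
  rw [h1]
  ring

lemma F_eq (b s : ℝ) : (fun t => k t * (if s ≤ t then b else 0)) =
    (Ici s).indicator fun t => k t * b := by
  funext t
  by_cases h : s ≤ t
  · rw [indicator_of_mem (show t ∈ Ici s from h), if_pos h]
  · rw [indicator_of_notMem (show t ∉ Ici s from h), if_neg h, mul_zero]

lemma F_int (b s : ℝ) {T : ℝ} (hT : 0 < T) :
    Integrable (fun t => k t * (if s ≤ t then b else 0)) (volume.restrict (Ioi T)) := by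
  rw [F_eq]
  exact (Integrable.mul_const (k_int hT) b).indicator measurableSet_Ici

lemma F_val (b s : ℝ) {T : ℝ} (hT : 0 < T) :
    ∫ t in Ioi T, k t * (if s ≤ t then b else 0) = b / (max T s) ^ 2 := by
  rw [F_eq, setIntegral_indicator measurableSet_Ici]
  have h1 : (Ioi T ∩ Ici s : Set ℝ) =ᵐ[volume] (Ioi T ∩ Ioi s : Set ℝ) :=
    (ae_eq_refl _).inter Ioi_ae_eq_Ici.symm
  rw [setIntegral_congr_set h1, Ioi_inter_Ioi, integral_mul_const,
    k_val (lt_of_lt_of_le hT (le_max_left _ _))]
  ring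

lemma F_nonneg {b : ℝ} (hb : 0 ≤ b) (s : ℝ) {t : ℝ} (ht : 0 < t) :
    0 ≤ k t * (if s ≤ t then b else 0) := by
  refine mul_nonneg (k_nonneg ht) ?_
  split_ifs
  · exact hb
  · exact le_rfl

lemma term_eq {b s T : ℝ} (hT : 0 < T) : b * s ^ 2 / (max T s) ^ 2 =
    (if s ≤ T then b * s ^ 2 else 0) / T ^ 2 + (if T < s then b else 0) := by
  by_cases h : s ≤ T
  · rw [max_eq_left h, if_pos h, if_neg (not_lt.2 h), add_zero]
  · have h1 : T < s := not_le.1 h
    rw [max_eq_right h1.le, if_neg h, if_pos h1, zero_div, zero_add]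
    have h2 : s ≠ 0 := (hT.trans h1).ne'
    field_simp

lemma B_eq [Countable ι] (h : Dat w g) {T : ℝ} (hT : 0 < T) :
    ∫ t in Ioi T, k t * AA w g t = AA w g T / T ^ 2 + RR w g T := by
  have hv : ∀ i, ∫ t in Ioi T, k t * (if g i ≤ t then w i * g i ^ 2 else 0) =
      (if g i ≤ T then w i * g i ^ 2 else 0) / T ^ 2 + (if T < g i then w i else 0) := by
    intro i
    rw [F_val _ _ hT, term_eq hT]
  have h3 : HasSum (fun i => (if g i ≤ T then w i * g i ^ 2 else 0) / T ^ 2 +
      (if T < g i then w i else 0)) (AA w g T / T ^ 2 + RR w g T) :=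
    ((sumA h T).hasSum.div_const _).add (sumR h T).hasSum
  have hn : ∀ i, ∫ t in Ioi T, ‖k t * (if g i ≤ t then w i * g i ^ 2 else 0)‖ =
      (if g i ≤ T then w i * g i ^ 2 else 0) / T ^ 2 + (if T < g i then w i else 0) := by
    intro i
    rw [← hv i]
    refine setIntegral_congr_fun measurableSet_Ioi fun t ht => ?_
    exact Real.norm_of_nonneg (F_nonneg (mul_nonneg (h.w0 i) (sq_nonneg _)) _ (hT.trans ht))
  have h1 := hasSum_integral_of_summable_integral_norm (μ := volume.restrict (Ioi T))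
    (F := fun i t => k t * (if g i ≤ t then w i * g i ^ 2 else 0)) (fun i => F_int _ _ hT)
    (by simp_rw [hn]; exact h3.summable)
  simp only [hv] at h1
  have h4 : (∫ t in Ioi T, ∑' i, k t * (if g i ≤ t then w i * g i ^ 2 else 0)) =
      ∫ t in Ioi T, k t * AA w g t := by
    simp_rw [tsum_mul_left]
    rfl
  rw [← h4]
  exact h1.unique h3

theorem t_L1 : Pool.Agent.H474.MS.S_L1 := by
  intro ι _ w g h α hA
  have hB : Tendsto (fun T => T * (AA w g T / T ^ 2 + RR w g T)) atTop (𝓝 (2 * α)) := by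
    rw [Metric.tendsto_atTop]
    intro ε hε
    obtain ⟨T0, hT0⟩ := (Metric.tendsto_atTop.1 hA) (ε / 4) (by positivity)
    refine ⟨max T0 1, fun T hT => ?_⟩
    have hT1 : 1 ≤ T := (le_max_right _ _).trans hT
    have hTT : T0 ≤ T := (le_max_left _ _).trans hT
    have hT' : 0 < T := by linarith
    have hb : ∀ t ∈ Ioi T, (α - ε / 4) * t ≤ AA w g t ∧ AA w g t ≤ (α + ε / 4) * t := by
      intro t ht
      have ht0 : 0 < t := hT'.trans ht
      have h1 := hT0 t (hTT.trans (le_of_lt ht))
      rw [Real.dist_eq, abs_lt] at h1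
      have h2 : AA w g t / t * t = AA w g t := div_mul_cancel₀ _ ht0.ne'
      constructor
      · rw [← h2]
        exact mul_le_mul_of_nonneg_right (by linarith [h1.1]) ht0.le
      · rw [← h2]
        exact mul_le_mul_of_nonneg_right (by linarith [h1.2]) ht0.le
    have hi : ∀ c : ℝ, IntegrableOn (fun t => k t * (c * t)) (Ioi T) := by
      intro c
      have h1 : IntegrableOn (fun t => c * (k t * t)) (Ioi T) := (kt_int hT').const_mul c
      refine h1.congr_fun (fun t _ => ?_) measurableSet_Ioi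
      show c * (k t * t) = k t * (c * t)
      ring
    have hvc : ∀ c : ℝ, ∫ t in Ioi T, k t * (c * t) = c * (2 / T) := by
      intro c
      rw [← kt_val hT', ← integral_const_mul]
      refine setIntegral_congr_fun measurableSet_Ioi fun t _ => ?_
      show k t * (c * t) = c * (k t * t)
      ring
    have hkm : Measurable k := by
      unfold k
      exact (measurable_id.pow_const _).const_mul 2
    have hiA : IntegrableOn (fun t => k t * AA w g t) (Ioi T) := by
      refine Integrable.mono' (hi (|α| + ε / 4))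
        (hkm.mul (monoA h).measurable).aestronglyMeasurable ?_
      filter_upwards [ae_restrict_mem measurableSet_Ioi] with t ht
      have ht0 : 0 < t := hT'.trans ht
      obtain ⟨h1, h2⟩ := hb t ht
      rw [norm_mul, Real.norm_of_nonneg (k_nonneg ht0), Real.norm_eq_abs]
      refine mul_le_mul_of_nonneg_left (abs_le.2 ⟨?_, ?_⟩) (k_nonneg ht0)
      · have h3 : -(|α| + ε / 4) * t ≤ (α - ε / 4) * t :=
          mul_le_mul_of_nonneg_right (by linarith [neg_abs_le α]) ht0.le
        linarith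
      · have h3 : (α + ε / 4) * t ≤ (|α| + ε / 4) * t :=
          mul_le_mul_of_nonneg_right (by linarith [le_abs_self α]) ht0.le
        linarith
    have hlo : (α - ε / 4) * (2 / T) ≤ ∫ t in Ioi T, k t * AA w g t := by
      rw [← hvc]
      exact setIntegral_mono_on (hi _) hiA measurableSet_Ioi fun t ht =>
        mul_le_mul_of_nonneg_left (hb t ht).1 (k_nonneg (hT'.trans ht))
    have hup : ∫ t in Ioi T, k t * AA w g t ≤ (α + ε / 4) * (2 / T) := by
      rw [← hvc]
      exact setIntegral_mono_on hiA (hi _) measurableSet_Ioi fun t ht =>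
        mul_le_mul_of_nonneg_left (hb t ht).2 (k_nonneg (hT'.trans ht))
    rw [← B_eq h hT', Real.dist_eq, abs_lt]
    have e1 := mul_le_mul_of_nonneg_left hlo hT'.le
    have e2 := mul_le_mul_of_nonneg_left hup hT'.le
    have e3 : ∀ c : ℝ, T * (c * (2 / T)) = 2 * c := by
      intro c
      field_simp
    rw [e3] at e1 e2
    constructor <;> linarith
  have hC := hB.sub hA
  have e : 2 * α - α = α := by ring
  rw [e] at hC
  refine hC.congr' ?_
  filter_upwards [eventually_gt_atTop 0] with T hT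
  have hT0 : T ≠ 0 := hT.ne'
  field_simp
  ring

end Pool.Agent.H100.MS.L1
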